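import Pool.Agent.MP_bd94e8_al.H89.Spec

/-!
Existence of pieces of graded covers; composition, weak positivity and restriction of covers.
-/

set_option autoImplicit false
set_option linter.unusedSectionVars false

namespace Pool.Agent.MP_bd94e8_al.H89

open Module Function

namespace PieceA

variable {k F : Type} [Field k] [Field F] [Algebra k F] {Pt ι Ω : Type} [Fintype Pt]
  [DecidableEq Pt] {T I O : Type} [Fintype T] [DecidableEq T]

theorem mask_one_mul (S : Pt → Prop) (b : Matrix Pt Pt F) :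
    mask (fun _ p => S p) (1 : Matrix Pt Pt F) * b = mask (fun q _ => S q) b := by
  ext q p
  rw [Matrix.mul_apply, Finset.sum_eq_single q (fun x _ hx => by
    rw [mask_apply, Matrix.one_apply_ne hx.symm, ite_self, zero_mul]) (by simp)]
  by_cases h : S q
  · rw [mask_pos (s := fun _ p => S p) _ h, mask_pos (s := fun q _ => S q) _ h,
      Matrix.one_apply_eq, one_mul]
  · rw [mask_neg (s := fun _ p => S p) _ h, mask_neg (s := fun q _ => S q) _ h, zero_mul]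

theorem mul_mask_one (S : Pt → Prop) (b : Matrix Pt Pt F) :
    b * mask (fun _ p => S p) (1 : Matrix Pt Pt F) = mask (fun _ p => S p) b := by
  ext q p
  rw [Matrix.mul_apply, Finset.sum_eq_single p (fun x _ hx => by
    rw [mask_apply, Matrix.one_apply_ne hx, ite_self, mul_zero]) (by simp)]
  by_cases h : S p
  · rw [mask_pos (s := fun _ p => S p) _ h, mask_pos (s := fun _ p => S p) _ h,
      Matrix.one_apply_eq, mul_one]
  · rw [mask_neg (s := fun _ p => S p) _ h, mask_neg (s := fun _ p => S p) _ h, mul_zero]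

theorem one_eq (vt : T → I) (π : T → Pt) (inj : ∀ t t', vt t = vt t' → π t = π t' → t = t')
    {t t' : T} (h : vt t = vt t') :
    (1 : Matrix T T F) t' t = (1 : Matrix Pt Pt F) (π t') (π t) := by
  by_cases e : t' = t
  · rw [e, Matrix.one_apply_eq, Matrix.one_apply_eq]
  · rw [Matrix.one_apply_ne e, Matrix.one_apply_ne fun e' => e (inj _ _ h.symm e')]

/-- The algebra of a cover. -/
theorem exists_prob (P : Prob k F Pt ι Ω) (vt : T → I) (pk : T → O) (π : T → Pt)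
    (vt_eq : ∀ t t', vt t = vt t' → P.vt (π t) = P.vt (π t'))
    (inj : ∀ t t', vt t = vt t' → π t = π t' → t = t')
    (full : ∀ t p, P.vt p = P.vt (π t) → ∃ t', vt t' = vt t ∧ π t' = p) :
    ∃ J : Prob k F T I O, J.vt = vt ∧ J.pk = pk ∧ ∀ b, b ∈ J.B ↔
      (∀ t' t, b t' t ≠ 0 → pk t' = pk t) ∧
      ∀ i j, ∃ h ∈ P.B, ∀ t t', vt t = i → vt t' = j → b t' t = h (π t') (π t) := by
  classical
  let C : Set (Matrix T T F) := {b | (∀ t' t, b t' t ≠ 0 → pk t' = pk t) ∧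
      ∀ i j, ∃ h ∈ P.B, ∀ t t', vt t = i → vt t' = j → b t' t = h (π t') (π t)}
  have hdiag : ∀ (b : Matrix T T F), (∀ t' t, t' ≠ t → b t' t = 0) →
      (∀ i, ∃ h ∈ P.B, ∀ t t', vt t = i → vt t' = i → b t' t = h (π t') (π t)) → b ∈ C := by
    intro b h1 h2
    refine ⟨fun t' t h => ?_, fun i j => ?_⟩
    · by_contra e
      exact h (h1 t' t fun e' => e (by rw [e']))
    · by_cases e : i = j
      · exact e ▸ h2 i
      · exact ⟨0, P.B.zero_mem, fun t t' h h' => h1 t' t fun e' => e (by rw [← h, ← h', e'])⟩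
  have hmul : ∀ {b b' : Matrix T T F}, b ∈ C → b' ∈ C → b * b' ∈ C := by
    intro b b' hb hb'
    refine ⟨fun t' t h => ?_, fun i j => ?_⟩
    · rw [Matrix.mul_apply] at h
      obtain ⟨s, -, hs⟩ := Finset.exists_ne_zero_of_sum_ne_zero h
      exact (hb.1 _ _ (left_ne_zero_of_mul hs)).trans (hb'.1 _ _ (right_ne_zero_of_mul hs))
    · have key : ∀ l ∈ Finset.univ.image vt, ∃ c ∈ P.B, ∀ t t', vt t = i → vt t' = j →
          ∑ s with vt s = l, b t' s * b' s t = c (π t') (π t) := by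
        intro l hl
        obtain ⟨s₀, -, rfl⟩ := Finset.mem_image.1 hl
        obtain ⟨h, hh, e⟩ := hb.2 (vt s₀) j
        obtain ⟨h', hh', e'⟩ := hb'.2 i (vt s₀)
        refine ⟨h * P.e (P.vt (π s₀)) * h', P.B.mul_mem (P.B.mul_mem hh (P.e_mem _)) hh',
          fun t t' ht ht' => ?_⟩
        rw [Prob.e, mul_mask_one, Matrix.mul_apply]
        refine Finset.sum_bij_ne_zero (fun s _ _ => π s) (fun _ _ _ => Finset.mem_univ _)
          (fun s h1 _ s' h2 _ h3 => inj _ _ ((Finset.mem_filter.1 h1).2.trans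
            (Finset.mem_filter.1 h2).2.symm) h3) (fun p _ hp => ?_) (fun s h1 _ => ?_)
        · obtain ⟨s, h1, rfl⟩ := full s₀ p (mask_ne (left_ne_zero_of_mul hp)).1
          refine ⟨s, Finset.mem_filter.2 ⟨Finset.mem_univ _, h1⟩, ?_, rfl⟩
          rw [e s t' h1 ht', e' t s ht h1]
          exact mul_ne_zero (mask_ne (left_ne_zero_of_mul hp)).2 (right_ne_zero_of_mul hp)
        · have h2 := (Finset.mem_filter.1 h1).2
          rw [mask_pos (s := fun _ p => P.vt p = P.vt (π s₀)) _ (vt_eq _ _ h2), e s t' h2 ht',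
            e' t s ht h2]
      choose! c hc hc' using key
      refine ⟨∑ l ∈ Finset.univ.image vt, c l, P.B.sum_mem hc, fun t t' ht ht' => ?_⟩
      rw [Matrix.mul_apply, Matrix.sum_apply, ← Finset.sum_fiberwise_of_maps_to
        (g := vt) (t := Finset.univ.image vt) fun s hs => Finset.mem_image_of_mem _ hs]
      exact Finset.sum_congr rfl fun l hl => hc' l hl t t' ht ht'
  have hadd : ∀ {b b' : Matrix T T F}, b ∈ C → b' ∈ C → b + b' ∈ C := by
    intro b b' hb hb'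
    refine ⟨fun t' t h => ?_, fun i j => ?_⟩
    · by_cases e : b t' t = 0
      · exact hb'.1 _ _ (by simpa [e] using h)
      · exact hb.1 _ _ e
    · obtain ⟨h, hh, e⟩ := hb.2 i j
      obtain ⟨h', hh', e'⟩ := hb'.2 i j
      exact ⟨h + h', P.B.add_mem hh hh', fun t t' h1 h2 => by
        rw [Matrix.add_apply, Matrix.add_apply, e t t' h1 h2, e' t t' h1 h2]⟩
  have halg : ∀ c : k, algebraMap k (Matrix T T F) c ∈ C := fun c => by
    rw [Algebra.algebraMap_eq_smul_one]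
    refine hdiag _ (fun t' t h => by rw [Matrix.smul_apply, Matrix.one_apply_ne h, smul_zero])
      fun i => ⟨c • 1, P.B.smul_mem P.B.one_mem c, fun t t' h1 h2 => ?_⟩
    rw [Matrix.smul_apply, Matrix.smul_apply, one_eq vt π inj (h1.trans h2.symm)]
  refine ⟨⟨vt, pk, ⟨⟨⟨⟨C, hmul⟩, by simpa using halg 1⟩, hadd, by simpa using halg 0⟩, halg⟩,
    fun i => hdiag _ (fun t' t h => ?_) fun j => ?_, fun b hb q p h => hb.1 q p h⟩,
    rfl, rfl, fun b => Iff.rfl⟩
  · rw [mask_apply, Matrix.one_apply_ne h, ite_self]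
  · by_cases e : j = i
    · exact ⟨1, P.B.one_mem, fun t t' h1 h2 => by
        rw [mask_pos (s := fun _ p => vt p = i) _ (h1.trans e), one_eq vt π inj (h1.trans h2.symm)]⟩
    · exact ⟨0, P.B.zero_mem, fun t t' h1 _ =>
        mask_neg (s := fun _ p => vt p = i) _ fun h => e (h1.symm.trans h)⟩

theorem exists_lift (P : Prob k F Pt ι Ω) {G : Type} [Group G] {deg : Pt → G} (hG : Graded P deg)
    (vt : T → I) (pk : T → O) (π : T → Pt) (γ : I → ι × G) (θ : O → Ω × G) (γinj : Injective γ)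
    (θinj : Injective θ) (hvt : ∀ t, (γ (vt t)).1 = P.vt (π t))
    (hpk : ∀ t, θ (pk t) = (P.pk (π t), (γ (vt t)).2 * deg (π t))) (surj : Surjective vt)
    (inj : ∀ t t', vt t = vt t' → π t = π t' → t = t')
    (full : ∀ t p, P.vt p = P.vt (π t) → ∃ t', vt t' = vt t ∧ π t' = p) :
    ∃ J : Prob k F T I O, J.vt = vt ∧ J.pk = pk ∧ Lift J P deg π γ θ := by
  have vt_eq : ∀ t t', vt t = vt t' → P.vt (π t) = P.vt (π t') := fun t t' h => by
    rw [← hvt, ← hvt, h]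
  obtain ⟨J, rfl, rfl, hJ⟩ := exists_prob P vt pk π vt_eq inj full
  have hiff : ∀ t t', J.pk t' = J.pk t ↔ P.pk (π t') = P.pk (π t) ∧
      deg (π t) = ((γ (J.vt t)).2⁻¹ * (γ (J.vt t')).2) * deg (π t') := fun t t' => by
    rw [← θinj.eq_iff, hpk, hpk, Prod.mk.injEq, mul_assoc, eq_inv_mul_iff_mul_eq,
      eq_comm (a := (γ (J.vt t)).2 * _)]
  refine ⟨J, rfl, rfl, γinj, θinj, hvt, hpk, surj, vt_eq, inj, full,
    fun t t' h => ((hiff _ _).1 h).1, fun t t' h h' => inj _ _ (γinj (Prod.ext ?_ ?_)) h, hJ,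
    fun h hh i j => ⟨_, hG h hh ((γ i).2⁻¹ * (γ j).2), ?_⟩⟩
  · rw [hvt, hvt, h]
  · have := congrArg Prod.snd (congrArg θ h')
    rw [hpk, hpk, h] at this
    exact mul_right_cancel this
  · rintro t t' rfl rfl
    refine ⟨fun e => mask_pos (s := fun q p => deg p = _ * deg q) _ ((hiff _ _).1 e).2,
      fun e => ?_⟩
    by_contra hne
    exact e ((hiff _ _).2 ⟨P.peak h hh _ _ (mask_ne hne).2, (mask_ne hne).1⟩)

variable {P : Prob k F Pt ι Ω} {J : Prob k F T I O} {π : T → Pt}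

theorem lift_mem (hc : Cover J P π) {h : Matrix Pt Pt F} (hh : h ∈ P.B) (i j : I) :
    mask (fun t' t => J.vt t = i ∧ J.vt t' = j ∧ J.pk t' = J.pk t) (h.submatrix π π) ∈ J.H i j := by
  refine ⟨(hc.mem _).2 ⟨fun t' t e => (mask_ne e).1.2.2, fun i' j' => ?_⟩,
    fun t' t e => ⟨(mask_ne e).1.1, (mask_ne e).1.2.1⟩⟩
  by_cases e : i' = i ∧ j' = j
  · obtain ⟨rfl, rfl⟩ := e
    obtain ⟨h', hh', e⟩ := hc.homog h hh i' j'
    refine ⟨h', hh', fun t t' h1 h2 => ?_⟩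
    by_cases e' : J.pk t' = J.pk t
    · rw [(e t t' h1 h2).1 e']
      exact mask_pos (s := fun t' t => J.vt t = i' ∧ J.vt t' = j' ∧ J.pk t' = J.pk t) _
        ⟨h1, h2, e'⟩
    · rw [(e t t' h1 h2).2 e']
      exact mask_neg (s := fun t' t => J.vt t = i' ∧ J.vt t' = j' ∧ J.pk t' = J.pk t) _
        fun h3 => e' h3.2.2
  · exact ⟨0, P.B.zero_mem, fun t t' h1 h2 =>
      mask_neg (s := fun t' t => J.vt t = i ∧ J.vt t' = j ∧ J.pk t' = J.pk t) _
        fun h3 => e ⟨h1.symm.trans h3.1, h2.symm.trans h3.2.1⟩⟩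

theorem lift_mem' (hc : Cover J P π) {h : Matrix Pt Pt F} (hh : h ∈ P.B) (i j : I) :
    ∃ c ∈ J.B, ∀ t t', J.vt t = i → J.vt t' = j →
      (J.pk t' = J.pk t → c t' t = h (π t') (π t)) ∧ (h (π t') (π t) = 0 → c t' t = 0) :=
  ⟨_, (lift_mem hc hh i j).1, fun t t' h1 h2 =>
    ⟨fun h3 => mask_pos (s := fun t' t => J.vt t = i ∧ J.vt t' = j ∧ J.pk t' = J.pk t) _
      ⟨h1, h2, h3⟩, fun h3 => by_contra fun h4 => (mask_ne h4).2 h3⟩⟩

theorem comp (hc : Cover J P π) {T' I' O' : Type} [Fintype T'] [DecidableEq T']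
    {J' : Prob k F T' I' O'} {π' : T' → T} (hc' : Cover J' J π') : Cover J' P (π ∘ π') := by
  have hblk : ∀ (i j : I') (Q : Matrix Pt Pt F → T' → T' → Prop),
      (∀ i₀ j₀, (∀ t, J'.vt t = i → J.vt (π' t) = i₀) → (∀ t, J'.vt t = j → J.vt (π' t) = j₀) →
        ∃ h ∈ P.B, ∀ t t', J'.vt t = i → J'.vt t' = j → Q h t t') →
      ∃ h ∈ P.B, ∀ t t', J'.vt t = i → J'.vt t' = j → Q h t t' := by
    intro i j Q H
    by_cases e : ∃ t t', J'.vt t = i ∧ J'.vt t' = j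
    · obtain ⟨t, t', h1, h2⟩ := e
      exact H _ _ (fun s hs => hc'.vt_eq s t (hs.trans h1.symm))
        fun s hs => hc'.vt_eq s t' (hs.trans h2.symm)
    · exact ⟨0, P.B.zero_mem, fun t t' h1 h2 => (e ⟨t, t', h1, h2⟩).elim⟩
  refine ⟨fun t t' h => hc.vt_eq _ _ (hc'.vt_eq _ _ h),
    fun t t' h h' => hc'.inj _ _ h (hc.inj _ _ (hc'.vt_eq _ _ h) h'), fun t p h => ?_,
    fun t t' h => hc.pk_eq _ _ (hc'.pk_eq _ _ h),
    fun t t' h h' => hc'.uniq _ _ (hc.uniq _ _ h (hc'.pk_eq _ _ h')) h', fun b => ?_,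
    fun h hh i j => hblk i j _ fun i₀ j₀ hi hj => ?_⟩
  · obtain ⟨s, h1, rfl⟩ := hc.full _ p h
    obtain ⟨t', h2, rfl⟩ := hc'.full t s h1
    exact ⟨t', h2, rfl⟩
  · rw [hc'.mem]
    refine and_congr_right fun hb => forall_congr' fun i => forall_congr' fun j => ⟨?_, ?_⟩
    · rintro ⟨c, hcB, e⟩
      refine hblk i j _ fun i₀ j₀ hi hj => ?_
      obtain ⟨h, hh, e'⟩ := ((hc.mem c).1 hcB).2 i₀ j₀
      exact ⟨h, hh, fun t t' h1 h2 => (e t t' h1 h2).trans (e' _ _ (hi t h1) (hj t' h2))⟩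
    · rintro ⟨h, hh, e⟩
      by_cases e0 : ∃ t t', J'.vt t = i ∧ J'.vt t' = j
      · obtain ⟨s, s', h1, h2⟩ := e0
        obtain ⟨c, hcB, e'⟩ := lift_mem' hc hh (J.vt (π' s)) (J.vt (π' s'))
        refine ⟨c, hcB, fun t t' h3 h4 => ?_⟩
        have e'' := e' _ _ (hc'.vt_eq t s (h3.trans h1.symm)) (hc'.vt_eq t' s' (h4.trans h2.symm))
        by_cases h5 : b t' t = 0
        · rw [h5, e''.2 ((e t t' h3 h4).symm.trans h5)]
        · rw [e''.1 (hc'.pk_eq _ _ (hb _ _ h5))]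
          exact e t t' h3 h4
      · exact ⟨0, J.B.zero_mem, fun t t' h1 h2 => (e0 ⟨t, t', h1, h2⟩).elim⟩
  · obtain ⟨c, hcB, e⟩ := lift_mem' hc hh i₀ j₀
    obtain ⟨c', hc'B, e'⟩ := hc'.homog c hcB i j
    obtain ⟨h', hh', e''⟩ := ((hc.mem c').1 hc'B).2 i₀ j₀
    refine ⟨h', hh', fun t t' h1 h2 => ?_⟩
    have e3 := (e'' _ _ (hi t h1) (hj t' h2)).symm
    exact ⟨fun h3 => e3.trans (((e' t t' h1 h2).1 h3).trans
      ((e _ _ (hi t h1) (hj t' h2)).1 (hc'.pk_eq _ _ h3))),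
      fun h3 => e3.trans ((e' t t' h1 h2).2 h3)⟩

theorem wp (hc : Cover J P π) [Fintype I] [Fintype O] (hs : Surjective J.vt) (hH : Hyp P.B) :
    J.WP := by
  have h1 : ∀ b : Matrix Pt Pt F, (1 : Matrix Pt Pt F).submatrix π id * b *
      (1 : Matrix Pt Pt F).submatrix id π = b.submatrix π π := fun b => by
    ext t' t
    simp [Matrix.mul_apply, Matrix.one_apply]
  refine hH F LinearMap.id rfl T I O J.vt J.pk hs ((1 : Matrix Pt Pt F).submatrix id π)
    ((1 : Matrix Pt Pt F).submatrix π id) (fun t t' h => ?_) J.H fun i j b hb => ?_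
  · have := h1 1
    rw [Matrix.mul_one] at this
    rw [this, one_eq J.vt π hc.inj h.symm, Matrix.submatrix_apply]
  · rw [h1]
    exact lift_mem hc hb i j

theorem ar (hc : Cover J P π) (t t' : T) (h : J.pk t = J.pk t') :
    J.Ar t t' ↔ P.Ar (π t) (π t') := by
  constructor
  · rintro ⟨h1, b, hb, h2⟩
    obtain ⟨c, hcB, e⟩ := ((hc.mem b).1 hb).2 (J.vt t) (J.vt t')
    exact ⟨fun h3 => h1 (hc.uniq _ _ h3 h), c, hcB, by rwa [← e t t' rfl rfl]⟩
  · rintro ⟨h1, b, hb, h2⟩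
    obtain ⟨c, hcB, e⟩ := lift_mem' hc hb (J.vt t) (J.vt t')
    exact ⟨fun h3 => h1 (by rw [h3]), c, hcB, by rwa [(e t t' rfl rfl).1 h.symm]⟩

theorem sub (hc : Cover J P π) (S : Pt → Prop) [DecidablePred S] (h : SubOk P S)
    (hM : MorOk P S) : ∃ h' : SubOk J (fun t => S (π t)),
      Cover (J.sub (fun t => S (π t)) h') (P.sub S h) fun t => ⟨π t.1, t.2⟩ := by
  classical
  have hε : mask (fun _ t => S (π t)) (1 : Matrix T T F) ∈ J.B := by
    refine (hc.mem _).2 ⟨fun t' t e => ?_, fun i j => ?_⟩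
    · by_contra e'
      exact (mask_ne e).2 (Matrix.one_apply_ne fun e'' => e' (by rw [e'']))
    · by_cases e : i = j
      · refine ⟨_, hM.1, fun t t' h1 h2 => ?_⟩
        rw [mask_apply, mask_apply, one_eq J.vt π hc.inj (h1.trans (e.trans h2.symm))]
      · refine ⟨0, P.B.zero_mem, fun t t' h1 h2 => ?_⟩
        rw [mask_apply, Matrix.one_apply_ne fun e' => e (by rw [← h1, ← h2, e']), ite_self]
        rfl
  have h' : SubOk J fun t => S (π t) := fun b hb b' hb' => by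
    refine ⟨_, J.B.mul_mem (J.B.mul_mem hb hε) hb', ?_⟩
    ext q p
    rw [mul_mask_one, Matrix.submatrix_apply, Matrix.mul_apply, Matrix.mul_apply]
    refine Finset.sum_bij_ne_zero (fun s _ _ => s.1) (fun _ _ _ => Finset.mem_univ _)
      (fun s _ _ s' _ _ h3 => Subtype.ext h3) (fun s _ hs => ?_) (fun s _ _ => ?_)
    · exact ⟨⟨s, (mask_ne (left_ne_zero_of_mul hs)).1⟩, Finset.mem_univ _,
        mul_ne_zero (mask_ne (left_ne_zero_of_mul hs)).2 (right_ne_zero_of_mul hs), rfl⟩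
    · rw [mask_pos (s := fun _ t => S (π t)) _ s.2]
      rfl
  refine ⟨h', fun t t' e => hc.vt_eq _ _ e,
    fun t t' e e' => Subtype.ext (hc.inj _ _ e (congrArg Subtype.val e')), fun t p e => ?_,
    fun t t' e => hc.pk_eq _ _ e,
    fun t t' e e' => Subtype.ext (hc.uniq _ _ (congrArg Subtype.val e) e'), fun b => ⟨?_, ?_⟩, ?_⟩
  · obtain ⟨t', h1, h2⟩ := hc.full t.1 p.1 e
    exact ⟨⟨t', h2 ▸ p.2⟩, h1, Subtype.ext h2⟩
  · rintro ⟨c, hcB, rfl⟩
    refine ⟨fun t' t e => J.peak c hcB _ _ e, fun i j => ?_⟩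
    obtain ⟨g, hg, e⟩ := ((hc.mem c).1 hcB).2 i j
    exact ⟨_, ⟨g, hg, rfl⟩, fun t t' h1 h2 => e t.1 t'.1 h1 h2⟩
  · rintro ⟨h1, h2⟩
    refine ⟨Matrix.of fun t' t => if e : S (π t') ∧ S (π t) then b ⟨t', e.1⟩ ⟨t, e.2⟩ else 0,
      (hc.mem _).2 ⟨fun t' t e => ?_, fun i j => ?_⟩, ?_⟩
    · rw [Matrix.of_apply] at e
      split_ifs at e with e'
      · exact h1 _ _ e
      · exact (e rfl).elim
    · obtain ⟨_, ⟨g, hg, rfl⟩, e⟩ := h2 i j
      refine ⟨_, P.B.mul_mem (P.B.mul_mem hM.1 hg) hM.1, fun t t' h3 h4 => ?_⟩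
      rw [mul_mask_one, mask_one_mul, Matrix.of_apply]
      split_ifs with e'
      · rw [mask_pos (s := fun _ p => S p) _ e'.2, mask_pos (s := fun q _ => S q) _ e'.1]
        exact e ⟨t, e'.2⟩ ⟨t', e'.1⟩ h3 h4
      · by_contra e''
        exact e' ⟨(mask_ne (mask_ne (Ne.symm e'')).2).1, (mask_ne (Ne.symm e'')).1⟩
    · ext t' t
      rw [Matrix.submatrix_apply, Matrix.of_apply, dif_pos ⟨t'.2, t.2⟩]
  · rintro _ ⟨g, hg, rfl⟩ i j
    obtain ⟨g', hg', e⟩ := hc.homog g hg i j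
    exact ⟨_, ⟨g', hg', rfl⟩, fun t t' h1 h2 => e t.1 t'.1 h1 h2⟩

end PieceA

open PieceA

theorem piece : SPiece := by
  intro k F _ _ _ Pt ι Ω _ _ P G _ deg hG
  refine ⟨fun Γ Θ hΓ => ?_, fun P₀ T I O _ _ J₀ π γ θ h1 h2 hL => ?_⟩
  · classical
    let T := {x : Γ × Pt // P.vt x.2 = x.1.1.1}
    let f : T → Ω × G := fun t => (P.pk t.1.2, t.1.1.1.2 * deg t.1.2)
    obtain ⟨J, -, -, hJ⟩ := exists_lift (T := T) (I := Γ) (O := ↥(Θ ∪ Finset.univ.image f)) P hG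
      (fun t => t.1.1) (fun t => ⟨f t, Finset.mem_union_right _
        (Finset.mem_image_of_mem _ (Finset.mem_univ t))⟩) (fun t => t.1.2) Subtype.val Subtype.val
      Subtype.val_injective Subtype.val_injective (fun t => t.2.symm) (fun _ => rfl)
      (fun x => by
        obtain ⟨p, hp⟩ := hΓ x.1 x.2
        exact ⟨⟨(x, p), hp⟩, rfl⟩)
      (fun t t' h h' => Subtype.ext (Prod.ext h h'))
      fun t p h => ⟨⟨(t.1.1, p), h.trans t.2⟩, rfl, rfl⟩
    exact ⟨T, Γ, _, inferInstance, inferInstance, inferInstance, inferInstance, J, _, _, _, hJ,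
      Subtype.range_val, fun x hx => ⟨⟨x, Finset.mem_union_left _ hx⟩, rfl⟩⟩
  · exact exists_lift P hG J₀.vt J₀.pk π γ θ hL.γinj hL.θinj (h1 ▸ hL.vt) (h2 ▸ hL.pk) hL.surj
      hL.cov.inj (h1 ▸ hL.cov.full)

theorem cov1 : SCov1 := fun _ _ _ _ _ _ _ _ _ _ _ _ _ _ _ _ _ _ hc =>
  ⟨fun _ _ _ _ _ _ _ hc' => comp hc hc', fun hs hH => wp hc hs hH, ar hc,
    fun S _ h hM => sub hc S h hM⟩

end Pool.Agent.MP_bd94e8_al.H89
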